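import Pool.Agent.Helper28.SG.Pw2
import Pool.Agent.Helper28.Fin8

set_option linter.unusedSectionVars false
open MeasureTheory Metric Matrix Polynomial

namespace Pool.Agent.Helper28

/-- block form with the trace -/
theorem adapt2 (x V : EuclideanSpace ℝ (Fin 8)) (G : Matrix (Fin 8) (Fin 8) ℝ) (h : Adm x V G) :
    ∃ (A : Matrix (Fin 6) (Fin 6) ℝ) (a : Fin 6 → ℝ),
      (∀ s : ℝ, (1 + s • G).det = (1 + s • A).det) ∧
      (∀ r : ℝ, (1 + (r ^ 2) • (Gᵀ * G)).det
        = (1 + (r ^ 2) • (A * Aᵀ) + (r ^ 2) • Matrix.vecMulVec a a).det) ∧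
      (Gᵀ * G).trace = fs A + a ⬝ᵥ a := by
  obtain ⟨b, hb0, hb1⟩ := exists_onb2 (n := 6) (E := EuclideanSpace ℝ (Fin 8)) (by simp) x V
    h.hx h.hV h.hxV
  set O : Matrix (Fin 8) (Fin 8) ℝ := Matrix.of fun i j => (b j).ofLp i with hOdef
  have hO : Oᵀ * O = 1 := by
    ext i j
    rw [Matrix.mul_apply]
    have h1 := orthonormal_iff_ite.1 b.orthonormal j i
    rw [PiLp.inner_apply] at h1
    simp only [RCLike.inner_apply, conj_trivial] at h1
    rw [Matrix.one_apply]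
    have h2 : (if j = i then (1 : ℝ) else 0) = if i = j then 1 else 0 := by
      by_cases hij : i = j
      · simp [hij]
      · rw [if_neg hij, if_neg (fun hh => hij hh.symm)]
    rw [← h2, ← h1]
    rfl
  have hO' : O * Oᵀ = 1 := mul_eq_one_comm.mp hO
  set G1 := Oᵀ * G * O with hG1
  have hG : G = O * G1 * Oᵀ := by
    rw [hG1]
    calc G = (O * Oᵀ) * G * (O * Oᵀ) := by rw [hO']; simp
      _ = O * (Oᵀ * G * O) * Oᵀ := by simp only [Matrix.mul_assoc]
  have hG1e : ∀ i j, G1 i j = (b i).ofLp ⬝ᵥ (G *ᵥ (b j).ofLp) := by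
    intro i j
    rw [hG1, Matrix.mul_assoc, Matrix.mul_apply]
    rfl
  have hG1e' : ∀ i j, G1 i j = ((b i).ofLp ᵥ* G) ⬝ᵥ (b j).ofLp := by
    intro i j
    rw [hG1e, Matrix.dotProduct_mulVec]
  have r0 : ∀ j, G1 0 j = 0 := fun j => by rw [hG1e', hb0, h.xG, zero_dotProduct]
  have r1 : ∀ j, G1 1 j = 0 := fun j => by rw [hG1e', hb1, h.VG, zero_dotProduct]
  have c0 : ∀ i, G1 i 0 = 0 := fun i => by rw [hG1e, hb0, h.Gx, dotProduct_zero]
  set e : Fin 2 ⊕ Fin 6 ≃ Fin 8 := finSumFinEquiv with he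
  have e0 : e (Sum.inl 0) = 0 := rfl
  have e1 : e (Sum.inl 1) = 1 := rfl
  set A : Matrix (Fin 6) (Fin 6) ℝ := Matrix.of fun i j => G1 (e (Sum.inr i)) (e (Sum.inr j))
    with hA
  set C : Matrix (Fin 6) (Fin 2) ℝ := Matrix.of fun i j => G1 (e (Sum.inr i)) (e (Sum.inl j))
    with hC
  set a : Fin 6 → ℝ := fun i => G1 (e (Sum.inr i)) 1 with ha
  have hblk : G1.submatrix e e = fromBlocks 0 0 C A := by
    ext p q
    rcases p with p | p
    · rcases q with q | q
      · fin_cases p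
        · exact r0 _
        · exact r1 _
      · fin_cases p
        · exact r0 _
        · exact r1 _
    · rcases q with q | q
      · rfl
      · rfl
  have hCC : C * Cᵀ = Matrix.vecMulVec a a := by
    ext i j
    rw [Matrix.mul_apply, Fin.sum_univ_two, Matrix.vecMulVec_apply]
    have h1 : C i 0 = 0 := c0 _
    rw [h1, zero_mul, zero_add]
    rfl
  have hdetO : O.det * Oᵀ.det = 1 := by rw [← det_mul, hO', det_one]
  have hdet : ∀ M : Matrix (Fin 8) (Fin 8) ℝ, (1 + O * M * Oᵀ).det = (1 + M).det := by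
    intro M
    have : 1 + O * M * Oᵀ = O * (1 + M) * Oᵀ := by
      rw [mul_add, add_mul, mul_one, hO']
    rw [this, det_mul, det_mul]
    calc O.det * (1 + M).det * Oᵀ.det = (O.det * Oᵀ.det) * (1 + M).det := by ring
      _ = (1 + M).det := by rw [hdetO, one_mul]
  have hsub : ∀ s : ℝ, (1 + s • G1).submatrix e e = fromBlocks 1 0 (s • C) (1 + s • A) := by
    intro s
    have : (1 + s • G1).submatrix e e = 1 + s • (G1.submatrix e e) := by
      ext p q
      simp [Matrix.one_apply]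
    rw [this, hblk, ← Matrix.fromBlocks_one, Matrix.fromBlocks_smul, Matrix.fromBlocks_add]
    simp
  refine ⟨A, a, ?_, ?_, ?_⟩
  · intro s
    have : s • G = O * (s • G1) * Oᵀ := by
      rw [Matrix.mul_smul, Matrix.smul_mul, ← hG]
    rw [this, hdet, ← Matrix.det_submatrix_equiv_self e, hsub, det_fromBlocks_zero₁₂, det_one,
      one_mul]
  · intro r
    have h1 : (r ^ 2) • (Gᵀ * G) = O * (((r ^ 2) • G1ᵀ) * G1) * Oᵀ := by
      have : Gᵀ * G = O * (G1ᵀ * G1) * Oᵀ := by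
        rw [hG, transpose_mul, transpose_mul, transpose_transpose]
        calc O * (G1ᵀ * Oᵀ) * (O * G1 * Oᵀ) = O * G1ᵀ * (Oᵀ * O) * G1 * Oᵀ := by
              simp only [Matrix.mul_assoc]
          _ = O * (G1ᵀ * G1) * Oᵀ := by rw [hO]; simp only [Matrix.mul_assoc, Matrix.one_mul]
      rw [this, Matrix.smul_mul, Matrix.mul_smul, Matrix.smul_mul]
    rw [h1, hdet, det_one_add_mul_comm, ← Matrix.det_submatrix_equiv_self e]
    have h2 : (1 + G1 * (r ^ 2) • G1ᵀ).submatrix e e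
        = fromBlocks 1 0 0 (1 + (r ^ 2) • (A * Aᵀ) + (r ^ 2) • Matrix.vecMulVec a a) := by
      have h3 : (1 + G1 * (r ^ 2) • G1ᵀ).submatrix e e
          = 1 + (r ^ 2) • ((G1.submatrix e e) * (G1.submatrix e e)ᵀ) := by
        rw [Matrix.transpose_submatrix, Matrix.submatrix_mul_equiv, Matrix.mul_smul]
        ext p q
        simp [Matrix.one_apply]
      rw [h3, hblk, Matrix.fromBlocks_transpose, Matrix.fromBlocks_multiply,
        Matrix.fromBlocks_smul, ← Matrix.fromBlocks_one, Matrix.fromBlocks_add]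
      congr 1
      · simp
      · simp
      · simp
      · simp only [hCC, smul_add]
        abel
    rw [h2, det_fromBlocks_zero₁₂, det_one, one_mul]
  · have h1 : (Gᵀ * G).trace = (G1 * G1ᵀ).trace := by
      have : Gᵀ * G = O * (G1ᵀ * G1) * Oᵀ := by
        rw [hG, transpose_mul, transpose_mul, transpose_transpose]
        calc O * (G1ᵀ * Oᵀ) * (O * G1 * Oᵀ) = O * G1ᵀ * (Oᵀ * O) * G1 * Oᵀ := by
              simp only [Matrix.mul_assoc]
          _ = O * (G1ᵀ * G1) * Oᵀ := by rw [hO]; simp only [Matrix.mul_assoc, Matrix.one_mul]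
      rw [this, trace_mul_comm, ← Matrix.mul_assoc, hO, Matrix.one_mul, trace_mul_comm]
    have h2 : (G1 * G1ᵀ).trace = ((G1.submatrix e e) * (G1.submatrix e e)ᵀ).trace := by
      rw [Matrix.transpose_submatrix, Matrix.submatrix_mul_equiv]
      exact (Equiv.sum_comp e (fun i => (G1 * G1ᵀ) i i)).symm
    have h5 : ∀ (P : Matrix (Fin 2) (Fin 2) ℝ) (Q : Matrix (Fin 2) (Fin 6) ℝ)
        (R : Matrix (Fin 6) (Fin 2) ℝ) (S : Matrix (Fin 6) (Fin 6) ℝ),
        (fromBlocks P Q R S).trace = P.trace + S.trace := by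
      intro P Q R S
      simp [Matrix.trace, Fintype.sum_sum_type]
    rw [h1, h2, hblk, Matrix.fromBlocks_transpose, Matrix.fromBlocks_multiply, h5, hCC]
    have h3 : (Matrix.vecMulVec a a).trace = a ⬝ᵥ a := by
      rw [Matrix.trace, dotProduct]
      exact Finset.sum_congr rfl fun i _ => rfl
    have h4 : (A * Aᵀ).trace = fs A := tr_mul_self A
    simp only [Matrix.zero_mul, Matrix.mul_zero, trace_zero, zero_add, add_zero, trace_add, h3, h4]
    ring

theorem UT.pw3 {V : E8 → E8} (h : UT V) (r : ℝ) (hr : 0 < r) (x : E8) (hx : ‖x‖ = 1) :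
    r ^ 2 * (hsz c8 V x ^ 2 - 1 - (2 / 5) * dk V 2 x)
      ≤ 648 * fv V r x * (fv V r x - cal V r x) ∧
    -((2 / 5) * r ^ 2 * dk V 2 x) ≤ fv V r x - cal V r x := by
  obtain ⟨A, a, h1, h2, h3⟩ := adapt2 x (V x) _ (h.adm x hx)
  obtain ⟨p, hp, hp2, hp3⟩ := det_pol A 1
  have hk : ∀ k, dk V k x = p.coeff k := fun k =>
    co_coeff p hp _ (fun s => by rw [Dd, h1, hp2]) k
  have hc2 := coeff2 A p hp2
  have hcal : cal V r x = calf (r • A) := by
    unfold cal calf
    rw [hk, hp3, Dd, Dd, h1, h1, Matrix.det_smul]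
    have : (1 : Matrix (Fin 6) (Fin 6) ℝ) + (-r) • A = 1 - r • A := by
      rw [neg_smul, sub_eq_add_neg]
    rw [this]
    simp
  have hf : fv V r x
      = Real.sqrt (1 + (r • A) * (r • A)ᵀ + Matrix.vecMulVec (r • a) (r • a)).det := by
    unfold fv
    rw [h2]
    congr 3
    · congr 1
      rw [transpose_smul, Matrix.smul_mul, Matrix.mul_smul, smul_smul, sq]
    · rw [Matrix.smul_vecMulVec, Matrix.vecMulVec_smul, smul_smul, sq]
  obtain ⟨q1, q2⟩ := pw2 (r • A) (r • a)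
  rw [← hf, ← hcal] at q1 q2
  have t1 : (r • A).trace ^ 2 - ((r • A) * (r • A)).trace = r ^ 2 * (2 * dk V 2 x) := by
    rw [hk, hc2, trace_smul, Matrix.smul_mul, Matrix.mul_smul, trace_smul, trace_smul]
    simp only [smul_eq_mul]; ring
  have t2 : (r • a) ⬝ᵥ (r • a) = r ^ 2 * (a ⬝ᵥ a) := by
    rw [smul_dotProduct, dotProduct_smul]; simp only [smul_eq_mul]; ring
  rw [t1, fs_smul, t2] at q1
  rw [t1] at q2
  have hz := h.hs_sq x hx
  rw [h3] at hz
  constructor
  · rw [hz]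
    refine le_trans (le_of_eq ?_) q1
    ring
  · linarith

theorem UT.pw4 {V : E8 → E8} (h : UT V) (r κ : ℝ) (hr : 0 < r) (hκ : 0 < κ) (x : E8)
    (hx : ‖x‖ = 1) :
    hsz c8 V x ≤ (1 + (2 / 5) * dk V 2 x + (fv V r x - cal V r x) / r ^ 2 + 9 / 4) / 3
      + (18 / r) * (κ * fv V r x + (fv V r x - cal V r x) / (2 * κ)) := by
  obtain ⟨q1, q2⟩ := h.pw3 r hr x hx
  have hg := (h.pw_cal r hr x hx).1
  have hfn : 0 ≤ fv V r x := Real.sqrt_nonneg _
  set f := fv V r x with hf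
  set g := f - cal V r x with hgd
  have hgn : 0 ≤ g := by rw [hgd]; linarith
  set M := κ * f + g / (2 * κ) with hM
  have hMn : 0 ≤ M := by positivity
  have hM2 : 2 * (f * g) ≤ M ^ 2 := by
    have : M ^ 2 = (κ * f - g / (2 * κ)) ^ 2 + 2 * (f * g) := by
      rw [hM]; field_simp; ring
    rw [this]
    nlinarith [sq_nonneg (κ * f - g / (2 * κ))]
  set U := 1 + (2 / 5) * dk V 2 x + g / r ^ 2 with hU
  have hr2 : 0 < r ^ 2 := by positivity
  have hUn : 0 ≤ U := by
    have : -((2 / 5) * dk V 2 x) ≤ g / r ^ 2 := by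
      rw [le_div_iff₀ hr2]
      linarith
    rw [hU]; linarith
  have hz2 : hsz c8 V x ^ 2 ≤ U + ((18 / r) * M) ^ 2 := by
    have h1 : hsz c8 V x ^ 2 - 1 - (2 / 5) * dk V 2 x ≤ 648 * (f * g) / r ^ 2 := by
      rw [le_div_iff₀ hr2]
      linarith
    have h2 : 648 * (f * g) / r ^ 2 ≤ ((18 / r) * M) ^ 2 := by
      have : ((18 / r) * M) ^ 2 = 324 * M ^ 2 / r ^ 2 := by field_simp; ring
      rw [this]
      exact div_le_div_of_nonneg_right (by linarith) hr2.le
    have h3 : 0 ≤ g / r ^ 2 := by positivity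
    rw [hU]
    linarith
  have hT : 0 ≤ (18 / r) * M := by positivity
  have hS : U ≤ ((U + 9 / 4) / 3) ^ 2 := by nlinarith [sq_nonneg (U - 9 / 4)]
  have hS0 : 0 ≤ (U + 9 / 4) / 3 := by positivity
  have hgoal : hsz c8 V x ≤ (U + 9 / 4) / 3 + (18 / r) * M := by
    refine abs_le_of_sq_le_sq' ?_ (by positivity) |>.2
    nlinarith [mul_nonneg hS0 hT]
  exact hgoal

/-- the calibration constant `c(3;r)` -/
noncomputable def c3 (r : ℝ) : ℝ := (4 / 5) * (1 + r ^ 6) + (1 / 5) * (1 + r ^ 2) ^ 3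

theorem UT.Z_bound {V : E8 → E8} (h : UT V) (r κ : ℝ) (hr : 0 < r) (hκ : 0 < κ) :
    ∫ x : sphere (0 : E8) 1, hsz c8 V x ∂σ8 ≤
      (89 / 60) * σ8.real Set.univ
      + (1 / (3 * r ^ 2)) * ((∫ x : sphere (0 : E8) 1, fv V r x ∂σ8) - c3 r * σ8.real Set.univ)
      + (18 / r) * (κ * (∫ x : sphere (0 : E8) 1, fv V r x ∂σ8)
        + ((∫ x : sphere (0 : E8) 1, fv V r x ∂σ8) - c3 r * σ8.real Set.univ) / (2 * κ)) := by
  set α : ℝ := 1 / (3 * r ^ 2) with hα
  set β : ℝ := 18 / r with hβ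
  have h1 := int4 (fun _ => 1) (dk V 2) (fv V r) (cal V r) continuous_const (h.cdk 2)
    (h.cont_fv r) (h.cont_cal r) (13 / 12) (2 / 15) (α + β * (κ + 1 / (2 * κ)))
    (-(α + β * (1 / (2 * κ))))
  have h2 : ∫ x : sphere (0 : E8) 1, hsz c8 V x ∂σ8
      ≤ ∫ x : sphere (0 : E8) 1, ((13 / 12) * (1 : ℝ) + (2 / 15) * dk V 2 x
        + (α + β * (κ + 1 / (2 * κ))) * fv V r x
        + (-(α + β * (1 / (2 * κ)))) * cal V r x) ∂σ8 := by
    have c1 := h.cdk 2
    have c2 := h.cont_fv r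
    have c3 := h.cont_cal r
    refine integral_mono (int_of_cont _ (hsz_cont c8 V h.cdV))
      (int_of_cont (fun x => (13 / 12) * (1 : ℝ) + (2 / 15) * dk V 2 x
        + (α + β * (κ + 1 / (2 * κ))) * fv V r x
        + (-(α + β * (1 / (2 * κ)))) * cal V r x) (by fun_prop)) (fun x => ?_)
    have h3 := h.pw4 r κ hr hκ x (by simp)
    refine h3.trans (le_of_eq ?_)
    simp only [hα, hβ]
    field_simp
    ring
  refine h2.trans (le_of_eq ?_)
  rw [h1, h.int_dk 2 (by norm_num), h.int_cal]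
  simp only [bc, integral_const, smul_eq_mul, mul_one, c3]
  ring

theorem UT.gap (r : ℝ) (hr : 0 < r) : ∃ ε : ℝ, 0 < ε ∧ ∀ V : E8 → E8, UT V →
    (c3 r + ε) * σ8.real Set.univ < ∫ x : sphere (0 : E8) 1, fv V r x ∂σ8 := by
  have hc1 : 1 ≤ c3 r := by
    unfold c3
    have h1 : 0 ≤ r ^ 6 := by positivity
    have h2 : 1 ≤ (1 + r ^ 2) ^ 3 := one_le_pow₀ (by nlinarith [sq_nonneg r])
    linarith
  set C1 := c3 r + 1 with hC1
  have hC1p : 0 < C1 := by linarith
  have hCst : 0 ≤ Cst r 3 := Cst_nonneg r 3 hr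
  set B := 1 + 2 * Cst r 3 + 18 / r + 1 / (3 * r ^ 2) with hB
  have hi1 : 0 < 18 / r := by positivity
  have hi2 : 0 < 1 / (3 * r ^ 2) := by positivity
  have hB1 : 1 ≤ B := by rw [hB]; linarith
  set η := 1 / (100 * B) with hη
  have hηp : 0 < η := by positivity
  have hη1 : η ≤ 1 / 100 := by
    rw [hη, div_le_div_iff₀ (by positivity) (by norm_num)]
    linarith
  have hηB : η * B = 1 / 100 := by rw [hη]; field_simp
  set κ := η / C1 with hκ
  have hκp : 0 < κ := by positivity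
  have hκC : κ * C1 = η := by rw [hκ]; field_simp
  have hκη : κ ≤ η := by
    have : 1 ≤ C1 := by linarith
    nlinarith
  set ε := 2 * κ * η with hε
  have hεp : 0 < ε := by positivity
  have hε1 : ε ≤ 1 := by
    rw [hε]; nlinarith
  have hεη : ε ≤ η := by
    rw [hε]; nlinarith
  refine ⟨ε, hεp, fun V h => ?_⟩
  by_contra hcon
  push Not at hcon
  set F := ∫ x : sphere (0 : E8) 1, fv V r x ∂σ8 with hFd
  set vol := σ8.real Set.univ with hvol
  have hvp : 0 < vol := vol8_pos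
  have hE : F - c3 r * vol ≤ ε * vol := by linarith
  have hFC : F ≤ C1 * vol := by
    rw [hC1]; nlinarith
  have hmu : κ * F + (F - c3 r * vol) / (2 * κ) ≤ 2 * η * vol := by
    have h1 : κ * F ≤ η * vol := by
      calc κ * F ≤ κ * (C1 * vol) := mul_le_mul_of_nonneg_left hFC hκp.le
        _ = η * vol := by rw [← mul_assoc, hκC]
    have h2 : (F - c3 r * vol) / (2 * κ) ≤ η * vol := by
      rw [div_le_iff₀ (by positivity)]
      refine hE.trans (le_of_eq ?_)
      rw [hε]; ring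
    linarith
  have hBb : ∀ w : Fin 8 → ℝ, w ⬝ᵥ w ≤ 1 → |∫ x : sphere (0 : E8) 1, u2 V w x ∂σ8|
      ≤ 2 * Cst r 3 * (2 * η * vol) := by
    intro w hw
    refine (h.K0_bound r κ hr hκp w hw).trans ?_
    exact mul_le_mul_of_nonneg_left hmu (by positivity)
  have hI := h.norm_int _ (by positivity) hBb
  have hP := poincare (n := 6) (E := E8) (by simp) c8 V h.cdV
    (fun x hx => h.unit x (by simpa using hx))
  have hZ := h.Z_bound r κ hr hκp
  set Z := ∫ x : sphere (0 : E8) 1, hsz c8 V x ∂σ8 with hZd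
  have hZ2 : Z ≤ (89 / 60) * vol + (1 / (3 * r ^ 2)) * (ε * vol) + (18 / r) * (2 * η * vol) := by
    refine hZ.trans ?_
    have h1 : (1 / (3 * r ^ 2)) * (F - c3 r * vol) ≤ (1 / (3 * r ^ 2)) * (ε * vol) :=
      mul_le_mul_of_nonneg_left hE hi2.le
    have h2 := mul_le_mul_of_nonneg_left hmu hi1.le
    linarith
  have hs7 : (2.645 : ℝ) ≤ Real.sqrt ((6 : ℕ) + 1) := by
    refine Real.le_sqrt_of_sq_le ?_
    norm_num
  have hpi : Real.pi ≤ 3.1416 := by
    have := Real.pi_lt_d4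
    linarith
  have hcst : Real.pi / 2 / Real.sqrt ((6 : ℕ) + 1) ≤ 0.5939 := by
    rw [div_le_iff₀ (lt_of_lt_of_le (by norm_num) hs7)]
    have : Real.pi / 2 ≤ 0.5939 * 2.645 := by
      norm_num
      norm_num at hpi
      linarith
    exact this.trans (mul_le_mul_of_nonneg_left hs7 (by norm_num))
  have hZ0 : 0 ≤ Z := integral_nonneg fun x => Real.sqrt_nonneg _
  have hfin : vol - ‖∫ x : sphere (0 : E8) 1, V x ∂σ8‖ ≤ 0.5939 * Z :=
    hP.trans (mul_le_mul_of_nonneg_right hcst hZ0)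
  -- everything small is at most `vol / 50`
  have hsm1 : 2 * Cst r 3 * (2 * η * vol) + (18 / r) * (2 * η * vol)
      + (1 / (3 * r ^ 2)) * (ε * vol) ≤ (1 / 50) * vol := by
    have h1 : (1 / (3 * r ^ 2)) * (ε * vol) ≤ (1 / (3 * r ^ 2)) * (2 * η * vol) := by
      refine mul_le_mul_of_nonneg_left ?_ hi2.le
      nlinarith
    have h2 : 2 * Cst r 3 * (2 * η * vol) + (18 / r) * (2 * η * vol)
        + (1 / (3 * r ^ 2)) * (2 * η * vol) = 2 * (η * (B - 1)) * vol := by
      rw [hB]; ring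
    have h3 : 2 * (η * (B - 1)) * vol ≤ (1 / 50) * vol := by
      refine mul_le_mul_of_nonneg_right ?_ hvp.le
      nlinarith
    linarith
  have p1 : 0 ≤ 2 * Cst r 3 * (2 * η * vol) := by positivity
  have p2 : 0 ≤ (18 / r) * (2 * η * vol) := by positivity
  have p3 : 0 ≤ (1 / (3 * r ^ 2)) * (ε * vol) := by positivity
  norm_num at hfin
  nlinarith

end Pool.Agent.Helper28
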