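import Pool.Agent.Helper28.PolF

set_option linter.unusedSectionVars false
open Matrix Polynomial

namespace Pool.Agent.Helper28

/-- row norm -/
noncomputable def rn (N : Matrix (Fin 6) (Fin 6) ℝ) (i : Fin 6) : ℝ := Real.sqrt (∑ j, N i j ^ 2)

theorem rn_nonneg (N : Matrix (Fin 6) (Fin 6) ℝ) (i : Fin 6) : 0 ≤ rn N i := Real.sqrt_nonneg _

theorem rn_sq (N : Matrix (Fin 6) (Fin 6) ℝ) (i : Fin 6) : rn N i ^ 2 = ∑ j, N i j ^ 2 :=
  Real.sq_sqrt (Finset.sum_nonneg fun _ _ => sq_nonneg _)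

theorem tr_mul_self (N : Matrix (Fin 6) (Fin 6) ℝ) : (N * Nᵀ).trace = ∑ i, ∑ j, N i j ^ 2 := by
  rw [Matrix.trace]
  refine Finset.sum_congr rfl fun i _ => ?_
  rw [Matrix.diag_apply, Matrix.mul_apply]
  exact Finset.sum_congr rfl fun j _ => by rw [Matrix.transpose_apply, sq]

theorem tr_rn (N : Matrix (Fin 6) (Fin 6) ℝ) : (N * Nᵀ).trace = ∑ i, rn N i ^ 2 := by
  rw [tr_mul_self]
  exact Finset.sum_congr rfl fun i _ => (rn_sq N i).symm

/-- Hadamard's inequality -/
theorem hadamard (N : Matrix (Fin 6) (Fin 6) ℝ) : |N.det| ≤ ∏ i, rn N i := by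
  by_cases h0 : ∃ i, rn N i = 0
  · obtain ⟨i, hi⟩ := h0
    have h1 : ∀ j, N i j = 0 := by
      intro j
      have h2 := rn_sq N i
      rw [hi, zero_pow two_ne_zero] at h2
      have h3 := (Finset.sum_eq_zero_iff_of_nonneg (fun j _ => sq_nonneg (N i j))).1 h2.symm j
        (Finset.mem_univ j)
      exact pow_eq_zero_iff two_ne_zero |>.1 h3
    rw [det_eq_zero_of_row_eq_zero i h1, abs_zero]
    exact Finset.prod_nonneg fun i _ => rn_nonneg N i
  · push Not at h0
    set N' : Matrix (Fin 6) (Fin 6) ℝ := Matrix.of fun i j => (rn N i)⁻¹ * N i j with hN'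
    have h1 : N = Matrix.of fun i j => rn N i * N' i j := by
      ext i j
      simp only [hN', Matrix.of_apply]
      rw [← mul_assoc, mul_inv_cancel₀ (h0 i), one_mul]
    have h2 : N.det = (∏ i, rn N i) * N'.det := by
      conv_lhs => rw [h1]
      exact det_mul_column (fun i => rn N i) N'
    have h3 : (N' * N'ᵀ).trace = 6 := by
      rw [tr_mul_self]
      have : ∀ i, ∑ j, N' i j ^ 2 = 1 := by
        intro i
        simp only [hN', Matrix.of_apply, mul_pow]
        rw [← Finset.mul_sum, ← rn_sq, ← mul_pow, inv_mul_cancel₀ (h0 i), one_pow]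
      simp [this]
    have h4 := abs_det_le N'
    rw [h3] at h4
    norm_num at h4
    rw [h2, abs_mul, abs_of_nonneg (Finset.prod_nonneg fun i _ => rn_nonneg N i)]
    exact mul_le_of_le_one_right (Finset.prod_nonneg fun i _ => rn_nonneg N i) h4

theorem ml_exp (f : MultilinearMap ℝ (fun _ : Fin 6 => (Fin 6 → ℝ)) ℝ) (H W : Fin 6 → Fin 6 → ℝ)
    (t : ℝ) : f ((fun i => t • W i) + H) = ∑ I : Finset (Fin 6), t ^ I.card * f (I.piecewise W H) := by
  rw [f.map_add_univ]
  refine Finset.sum_congr rfl fun s _ => ?_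
  have h3 := f.map_piecewise_smul (fun _ => t) (s.piecewise W H) s
  have h4 : s.piecewise (fun i => t • (s.piecewise W H) i) (s.piecewise W H)
      = s.piecewise (fun i => t • W i) H := by
    funext i
    by_cases hi : i ∈ s
    · simp only [Finset.piecewise_eq_of_mem _ _ _ hi]
    · simp only [Finset.piecewise_eq_of_notMem _ _ _ hi]
  rw [h4] at h3
  rw [h3, Finset.prod_const, smul_eq_mul]

theorem al_exp (f : (Fin 6 → ℝ) [⋀^Fin 6]→ₗ[ℝ] ℝ) (H W : Fin 6 → Fin 6 → ℝ)
    (t : ℝ) : f ((fun i => t • W i) + H) = ∑ I : Finset (Fin 6), t ^ I.card * f (I.piecewise W H) :=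
  ml_exp f.toMultilinearMap H W t

/-- rows of `W` on `I`, rows of `H` elsewhere -/
def mix (H W : Matrix (Fin 6) (Fin 6) ℝ) (I : Finset (Fin 6)) : Matrix (Fin 6) (Fin 6) ℝ :=
  fun i => if i ∈ I then W i else H i

theorem row_exp (H W : Matrix (Fin 6) (Fin 6) ℝ) (t : ℝ) :
    (H + t • W).det = ∑ I : Finset (Fin 6), t ^ I.card * (mix H W I).det := by
  have h1 := al_exp Matrix.detRowAlternating (fun i => H i) (fun i => W i) t
  rw [add_comm H]
  have h2 : (t • W + H) = ((fun i => t • (fun i => W i) i) + (fun i => H i) : Fin 6 → Fin 6 → ℝ) := rfl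
  rw [Matrix.det, h2, h1]
  refine Finset.sum_congr rfl fun I _ => ?_
  have h3 : I.piecewise (fun i => W i) (fun i => H i) = mix H W I := by
    funext i
    by_cases hi : i ∈ I
    · simp only [Finset.piecewise_eq_of_mem _ _ _ hi, mix, if_pos hi]
    · simp only [Finset.piecewise_eq_of_notMem _ _ _ hi, mix, if_neg hi]
  rw [h3, Matrix.det]

theorem det_pw (H W : Matrix (Fin 6) (Fin 6) ℝ) (I : Finset (Fin 6)) :
    |(mix H W I).det| ≤ (∏ i ∈ I, rn W i) * ∏ i ∈ Finset.univ \ I, rn H i := by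
  refine (hadamard _).trans (le_of_eq ?_)
  rw [← Finset.prod_sdiff (Finset.subset_univ I), mul_comm]
  congr 1
  · refine Finset.prod_congr rfl fun i hi => ?_
    unfold rn
    congr 1
    refine Finset.sum_congr rfl fun j _ => ?_
    simp only [mix, if_pos hi]
  · refine Finset.prod_congr rfl fun i hi => ?_
    unfold rn
    congr 1
    refine Finset.sum_congr rfl fun j _ => ?_
    have hi' : i ∉ I := (Finset.mem_sdiff.1 hi).2
    simp only [mix, if_neg hi']

/-- the weights of the calibration -/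
noncomputable def om (n : ℕ) : ℝ :=
  (4 / 5) * ((if n = 0 then 1 else 0) + (if n = 6 then 1 else 0)) + (1 / 10) * (1 + (-1) ^ n)

theorem prod_le_core (z : Fin 6 → ℝ) : |∏ i, z i| ≤ ((∑ i, z i ^ 2) / 6) ^ 3 := by
  have h := abs_det_le (Matrix.diagonal z)
  rw [det_diagonal, Matrix.diagonal_transpose, Matrix.diagonal_mul_diagonal,
    Matrix.trace_diagonal] at h
  simpa only [← sq] using h

theorem om_sum (c s : Fin 6 → ℝ) (hc : ∀ i, 0 ≤ c i) (hs : ∀ i, 0 ≤ s i)
    (h1 : ∑ i, c i ^ 2 + ∑ i, s i ^ 2 = 6) :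
    ∑ I : Finset (Fin 6), om I.card * ((∏ i ∈ I, s i) * ∏ i ∈ Finset.univ \ I, c i) ≤ 1 := by
  have e1 : ∑ I : Finset (Fin 6), ((∏ i ∈ I, s i) * ∏ i ∈ Finset.univ \ I, c i)
      = ∏ i, (c i + s i) := by
    have := Finset.prod_add s c (Finset.univ : Finset (Fin 6))
    rw [Finset.powerset_univ] at this
    rw [← this]
    exact Finset.prod_congr rfl fun i _ => add_comm _ _
  have e2 : ∑ I : Finset (Fin 6), (-1 : ℝ) ^ I.card * ((∏ i ∈ I, s i) * ∏ i ∈ Finset.univ \ I, c i)
      = ∏ i, (c i - s i) := by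
    have := Finset.prod_add (fun i => -s i) c (Finset.univ : Finset (Fin 6))
    rw [Finset.powerset_univ] at this
    have h2 : ∏ i, (c i - s i) = ∏ i, (-s i + c i) :=
      Finset.prod_congr rfl fun i _ => by ring
    rw [h2, this]
    refine Finset.sum_congr rfl fun I _ => ?_
    rw [Finset.prod_neg]
    ring
  have e3 : ∑ I : Finset (Fin 6), (if I.card = 0 then (1 : ℝ) else 0)
      * ((∏ i ∈ I, s i) * ∏ i ∈ Finset.univ \ I, c i) = ∏ i, c i := by
    rw [Finset.sum_eq_single (∅ : Finset (Fin 6))]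
    · simp
    · intro b _ hb
      rw [if_neg (by simpa using hb), zero_mul]
    · intro h; exact absurd (Finset.mem_univ _) h
  have e4 : ∑ I : Finset (Fin 6), (if I.card = 6 then (1 : ℝ) else 0)
      * ((∏ i ∈ I, s i) * ∏ i ∈ Finset.univ \ I, c i) = ∏ i, s i := by
    rw [Finset.sum_eq_single (Finset.univ : Finset (Fin 6))]
    · simp
    · intro b _ hb
      rw [if_neg, zero_mul]
      intro h
      exact hb (Finset.card_eq_iff_eq_univ b |>.1 (by simpa using h))
    · intro h; exact absurd (Finset.mem_univ _) h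
  have e5 : ∑ I : Finset (Fin 6), om I.card * ((∏ i ∈ I, s i) * ∏ i ∈ Finset.univ \ I, c i)
      = (4 / 5) * (∏ i, c i + ∏ i, s i) + (1 / 10) * (∏ i, (c i + s i) + ∏ i, (c i - s i)) := by
    rw [← e1, ← e2, ← e3, ← e4]
    rw [← Finset.sum_add_distrib, ← Finset.sum_add_distrib, Finset.mul_sum, Finset.mul_sum,
      ← Finset.sum_add_distrib]
    refine Finset.sum_congr rfl fun I _ => ?_
    unfold om
    ring
  rw [e5]
  have hk : (∑ i, c i * s i) ^ 2 ≤ (∑ i, c i ^ 2) * ∑ i, s i ^ 2 :=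
    Finset.sum_mul_sq_le_sq_mul_sq Finset.univ c s
  have hp : ∑ i, (c i + s i) ^ 2 = ∑ i, c i ^ 2 + 2 * (∑ i, c i * s i) + ∑ i, s i ^ 2 := by
    rw [Finset.mul_sum, ← Finset.sum_add_distrib, ← Finset.sum_add_distrib]
    exact Finset.sum_congr rfl fun i _ => by ring
  have hm : ∑ i, (c i - s i) ^ 2 = ∑ i, c i ^ 2 - 2 * (∑ i, c i * s i) + ∑ i, s i ^ 2 := by
    rw [Finset.mul_sum, ← Finset.sum_sub_distrib, ← Finset.sum_add_distrib]
    exact Finset.sum_congr rfl fun i _ => by ring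
  have := cal_core (∑ i, c i ^ 2) (∑ i, s i ^ 2) (∑ i, c i * s i) h1 hk
    (Finset.sum_nonneg fun _ _ => sq_nonneg _) (Finset.sum_nonneg fun _ _ => sq_nonneg _)
    (∏ i, c i) (∏ i, s i) (∏ i, (c i + s i)) (∏ i, (c i - s i))
    (prod_le_core c) (prod_le_core s) (by rw [← hp]; exact prod_le_core _)
    (by rw [← hm]; exact prod_le_core _)
  exact (le_abs_self _).trans this

end Pool.Agent.Helper28
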