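import Pool.Agent.Helper28.SG.Fin

set_option linter.unusedSectionVars false
open MeasureTheory Metric Matrix

namespace Pool.Agent.Helper28

/-- the Hopf field of length `r` -/
noncomputable def hopf (r : ℝ) (x : E8) : E8 :=
  WithLp.toLp 2 ![-(r * x.ofLp 1), r * x.ofLp 0, -(r * x.ofLp 3), r * x.ofLp 2,
    -(r * x.ofLp 5), r * x.ofLp 4, -(r * x.ofLp 7), r * x.ofLp 6]

theorem hopf_cd (r : ℝ) : ContDiff ℝ ((⊤ : ℕ∞) : WithTop ℕ∞) (hopf r) := by
  have hc : ∀ i : Fin 8, ContDiff ℝ ((⊤ : ℕ∞) : WithTop ℕ∞) (fun x : E8 => x.ofLp i) := fun i =>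
    (contDiff_euclidean (𝕜 := ℝ)).1 contDiff_id i
  rw [contDiff_euclidean]
  intro i
  unfold hopf
  fin_cases i
  · exact (contDiff_const.mul (hc 1)).neg
  · exact contDiff_const.mul (hc 0)
  · exact (contDiff_const.mul (hc 3)).neg
  · exact contDiff_const.mul (hc 2)
  · exact (contDiff_const.mul (hc 5)).neg
  · exact contDiff_const.mul (hc 4)
  · exact (contDiff_const.mul (hc 7)).neg
  · exact contDiff_const.mul (hc 6)

theorem hopf_inner (r : ℝ) (x : E8) : inner ℝ x (hopf r x) = 0 := by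
  rw [PiLp.inner_apply, Fin.sum_univ_eight]
  simp [hopf]
  ring

theorem hopf_norm (r : ℝ) (hr : 0 < r) (x : E8) (hx : ‖x‖ = 1) : ‖hopf r x‖ = r := by
  have h1 := EuclideanSpace.real_norm_sq_eq x
  rw [hx, Fin.sum_univ_eight] at h1
  have h2 := EuclideanSpace.real_norm_sq_eq (hopf r x)
  rw [Fin.sum_univ_eight] at h2
  have h3 : ‖hopf r x‖ ^ 2 = r ^ 2 := by
    rw [h2]
    simp only [hopf]
    simp
    linear_combination (-(r ^ 2)) * h1
  exact (sq_eq_sq₀ (norm_nonneg _) hr.le).1 h3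

/-- volume of a field of constant length `r`, in terms of the unit field -/
theorem gap_X (r : ℝ) (hr : 0 < r) : ∃ ε : ℝ, 0 < ε ∧ ∀ X : E8 → E8,
    ContDiff ℝ ((⊤ : ℕ∞) : WithTop ℕ∞) X →
    (∀ x ∈ sphere (0 : E8) 1, inner ℝ x (X x) = 0 ∧ ‖X x‖ = r) →
    (c3 r + ε) * σ8.real Set.univ < ∫ x : sphere (0 : E8) 1,
      Real.sqrt (LinearMap.det (((1 + ContinuousLinearMap.adjoint (Gop X x) ∘L Gop X x :
        E8 →L[ℝ] E8)) : E8 →ₗ[ℝ] E8)) ∂σ8 := by
  obtain ⟨ε, hε, hgap⟩ := UT.gap r hr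
  refine ⟨ε, hε, fun X hX hX2 => ?_⟩
  have hr0 : r ≠ 0 := hr.ne'
  have hU : UT (fun x => r⁻¹ • X x) := by
    refine ⟨hX.const_smul r⁻¹, fun x hx => ?_, fun x hx => ?_⟩
    · rw [norm_smul, (hX2 x (by simpa using hx)).2, norm_inv, Real.norm_of_nonneg hr.le,
        inv_mul_cancel₀ hr0]
    · rw [real_inner_smul_right, (hX2 x (by simpa using hx)).1, mul_zero]
  refine (hgap _ hU).trans_le (le_of_eq ?_)
  refine integral_congr_ae (Filter.Eventually.of_forall fun x => ?_)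
  have hXd : HasFDerivAt X (fderiv ℝ X (x : E8)) (x : E8) :=
    (hX.differentiable (by simp) (x : E8)).hasFDerivAt
  have hfd : fderiv ℝ (fun x => r⁻¹ • X x) (x : E8) = r⁻¹ • fderiv ℝ X (x : E8) :=
    (hXd.const_smul r⁻¹).fderiv
  have hG : Gop (fun x => r⁻¹ • X x) (x : E8) = r⁻¹ • Gop X (x : E8) := by
    rw [Gop, Gop, hfd]
    ext1 w
    simp only [Pj, ContinuousLinearMap.comp_apply, _root_.smul_apply, map_smul]
  have hdet : LinearMap.det
        (((1 + ContinuousLinearMap.adjoint (Gop X x) ∘L Gop X x : E8 →L[ℝ] E8)) : E8 →ₗ[ℝ] E8)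
      = (1 + (mt (Gop X x))ᵀ * mt (Gop X x)).det := by
    have h1 := mt_det (1 + ContinuousLinearMap.adjoint (Gop X x) ∘L Gop X x)
    rw [mt_add, mt_one, mt_mul, mt_adj] at h1
    exact h1.symm
  show fv (fun x => r⁻¹ • X x) r x = Real.sqrt (LinearMap.det
        (((1 + ContinuousLinearMap.adjoint (Gop X x) ∘L Gop X x : E8 →L[ℝ] E8)) : E8 →ₗ[ℝ] E8))
  rw [hdet]
  unfold fv
  rw [hG, mt_smul, transpose_smul, Matrix.smul_mul, Matrix.mul_smul, smul_smul, smul_smul]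
  have : r ^ 2 * r⁻¹ * r⁻¹ = 1 := by field_simp
  rw [this, one_smul]

end Pool.Agent.Helper28
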