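import Pool.Agent.Helper28.SG.Had

set_option linter.unusedSectionVars false
open Matrix Polynomial

namespace Pool.Agent.Helper28

theorem coeff2 (A : Matrix (Fin 6) (Fin 6) ℝ) (p : ℝ[X]) (hp : ∀ s : ℝ, (1 + s • A).det = p.eval s) :
    2 * p.coeff 2 = A.trace ^ 2 - (A * A).trace := by
  set P := (det (1 + (X : ℝ[X]) • A.map C)).divX.divX with hP
  set Q := (det (1 + (X : ℝ[X]) • (-(A * A)).map C)).divX.divX with hQ
  have h1 : ∀ r : ℝ, (1 + r • A).det = 1 + A.trace * r + P.eval r * r ^ 2 := fun r =>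
    det_one_add_smul r A
  have h2 : ∀ r : ℝ, (1 + r • (-(A * A))).det = 1 - (A * A).trace * r + Q.eval r * r ^ 2 := by
    intro r
    have := det_one_add_smul r (-(A * A))
    rw [trace_neg] at this
    rw [this]; ring
  have h3 : ∀ r : ℝ, (1 + r • A).det * (1 + (-r) • A).det = (1 + (r ^ 2) • (-(A * A))).det := by
    intro r
    rw [← det_mul]
    congr 1
    have e1 : (1 + r • A) * (1 + (-r) • A) = 1 + r • A + (-r) • A + (r * (-r)) • (A * A) := by
      rw [mul_add, mul_one, add_mul, one_mul, smul_mul_smul_comm]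
      abel
    rw [e1, neg_smul, add_neg_cancel_right, smul_neg, ← neg_smul]
    congr 2
    ring
  have hpP : p = 1 + C A.trace * X + P * X ^ 2 := by
    refine Polynomial.funext fun r => ?_
    rw [← hp, h1]; simp
  have hc : p.coeff 2 = P.eval 0 := by
    rw [hpP, ← Polynomial.coeff_zero_eq_eval_zero]
    have e1 : (P * X ^ 2).coeff 2 = P.coeff 0 := by
      have := Polynomial.coeff_mul_X_pow P 2 0
      simpa using this
    rw [Polynomial.coeff_add, Polynomial.coeff_add, e1]
    simp [Polynomial.coeff_one, Polynomial.coeff_X]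
  have hg : (fun r : ℝ => -A.trace ^ 2 + P.eval r + P.eval (-r) + (A * A).trace
      + r * A.trace * (P.eval (-r) - P.eval r) + r ^ 2 * (P.eval r * P.eval (-r) - Q.eval (r ^ 2)))
      = fun _ => (0 : ℝ) := by
    refine Continuous.ext_on (dense_compl_singleton (0 : ℝ)) ?_ continuous_const ?_
    · have hPc : Continuous fun r : ℝ => P.eval r := P.continuous
      have hPn : Continuous fun r : ℝ => P.eval (-r) := P.continuous.comp continuous_neg
      have hQc : Continuous fun r : ℝ => Q.eval (r ^ 2) := Q.continuous.comp (continuous_pow 2)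
      fun_prop
    · intro r hr
      have hr0 : r ≠ 0 := hr
      have h4 := h3 r
      rw [h1, h1, h2] at h4
      have h5 : r ^ 2 * (-A.trace ^ 2 + P.eval r + P.eval (-r) + (A * A).trace
        + r * A.trace * (P.eval (-r) - P.eval r)
        + r ^ 2 * (P.eval r * P.eval (-r) - Q.eval (r ^ 2))) = 0 := by
        linear_combination h4
      exact (mul_eq_zero.1 h5).resolve_left (pow_ne_zero 2 hr0)
  have h6 := congrFun hg 0
  simp only [neg_zero, zero_mul, add_zero, ne_eq, OfNat.ofNat_ne_zero, not_false_eq_true,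
    zero_pow] at h6
  rw [hc]
  linarith

/-- squared Frobenius norm -/
noncomputable def fs (N : Matrix (Fin 6) (Fin 6) ℝ) : ℝ := ∑ i, ∑ j, N i j ^ 2

theorem fs_nonneg (N : Matrix (Fin 6) (Fin 6) ℝ) : 0 ≤ fs N :=
  Finset.sum_nonneg fun _ _ => Finset.sum_nonneg fun _ _ => sq_nonneg _

theorem fs_smul (c : ℝ) (N : Matrix (Fin 6) (Fin 6) ℝ) : fs (c • N) = c ^ 2 * fs N := by
  unfold fs
  simp only [Matrix.smul_apply, smul_eq_mul, mul_pow, ← Finset.mul_sum]

theorem vec_bound (M : Matrix (Fin 6) (Fin 6) ℝ) (y : Fin 6 → ℝ) :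
    ∑ i, (M *ᵥ y) i ^ 2 ≤ fs M * ∑ j, y j ^ 2 := by
  unfold fs
  rw [Finset.sum_mul]
  refine Finset.sum_le_sum fun i _ => ?_
  exact Finset.sum_mul_sq_le_sq_mul_sq Finset.univ (fun j => M i j) y

theorem fs_mul (M Y : Matrix (Fin 6) (Fin 6) ℝ) : fs (M * Y) ≤ fs M * fs Y := by
  have h1 : fs (M * Y) = ∑ j, ∑ i, (M *ᵥ (fun k => Y k j)) i ^ 2 := by
    unfold fs
    rw [Finset.sum_comm]
    rfl
  have h2 : fs Y = ∑ j, ∑ k, Y k j ^ 2 := by
    unfold fs; rw [Finset.sum_comm]
  rw [h1, h2, Finset.mul_sum]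
  exact Finset.sum_le_sum fun j _ => vec_bound M _

theorem adj_fs (H : Matrix (Fin 6) (Fin 6) ℝ) (h : ℝ) (hh : ∀ i, rn H i ^ 2 ≤ h)
    (h1 : ∀ i, rn H i ≤ 1) : fs H.adjugate ≤ 36 * h := by
  have h0 : 0 ≤ h := (sq_nonneg _).trans (hh 0)
  have key : ∀ i j, H.adjugate i j ^ 2 ≤ h := by
    intro i j
    rw [Matrix.adjugate_apply]
    set N := H.updateRow j (Pi.single i 1) with hN
    obtain ⟨k, hk⟩ : ∃ k : Fin 6, k ≠ j := exists_ne j
    have hrow : ∀ l, l ≠ j → rn N l = rn H l := by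
      intro l hl
      unfold rn
      rw [hN, Matrix.updateRow_ne hl]
    have hrj : rn N j = 1 := by
      unfold rn
      rw [hN, Matrix.updateRow_self]
      simp [Pi.single_apply]
    have hle : ∀ l, rn N l ≤ 1 := by
      intro l
      by_cases hl : l = j
      · rw [hl, hrj]
      · rw [hrow l hl]; exact h1 l
    have h2 : |N.det| ≤ rn N k := by
      refine (hadamard N).trans ?_
      rw [← Finset.mul_prod_erase Finset.univ (fun i => rn N i) (Finset.mem_univ k)]
      refine mul_le_of_le_one_right (rn_nonneg N k) ?_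
      exact Finset.prod_le_one (fun i _ => rn_nonneg N i) fun i _ => hle i
    have h3 : N.det ^ 2 ≤ rn N k ^ 2 := by
      rw [← sq_abs N.det]
      exact pow_le_pow_left₀ (abs_nonneg _) h2 2
    rw [hrow k hk] at h3
    exact h3.trans (hh k)
  unfold fs
  calc ∑ i, ∑ j, H.adjugate i j ^ 2 ≤ ∑ _i : Fin 6, ∑ _j : Fin 6, h :=
        Finset.sum_le_sum fun i _ => Finset.sum_le_sum fun j _ => key i j
    _ = 36 * h := by simp; ring

theorem D_shift (A : Matrix (Fin 6) (Fin 6) ℝ) (τ : ℝ) :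
    fs A - (1 / 5) * (A.trace ^ 2 - (A * A).trace) ≤ (6 / 5) * fs (A - τ • 1) := by
  set Y := A - τ • (1 : Matrix (Fin 6) (Fin 6) ℝ) with hY
  have hA : A = Y + τ • 1 := by rw [hY]; abel
  have t1 : A.trace = Y.trace + 6 * τ := by
    rw [hA, trace_add, trace_smul, trace_one]; simp; ring
  have t2 : (A * A).trace = (Y * Y).trace + 2 * τ * Y.trace + 6 * τ ^ 2 := by
    rw [hA]
    simp only [add_mul, mul_add, smul_mul_assoc, mul_smul_comm, one_mul, mul_one, smul_smul,
      trace_add, trace_smul, trace_one, smul_eq_mul]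
    simp; ring
  have t3 : fs A = fs Y + 2 * τ * Y.trace + 6 * τ ^ 2 := by
    have e : ∀ i j, A i j ^ 2 = Y i j ^ 2 + (2 * τ) * (Y i j * (1 : Matrix (Fin 6) (Fin 6) ℝ) i j)
        + τ ^ 2 * (1 : Matrix (Fin 6) (Fin 6) ℝ) i j := by
      intro i j
      rw [hA, Matrix.add_apply, Matrix.smul_apply, smul_eq_mul]
      by_cases hij : i = j
      · subst hij; rw [Matrix.one_apply_eq]; ring
      · rw [Matrix.one_apply_ne hij]; ring
    unfold fs
    simp only [e, Finset.sum_add_distrib, ← Finset.mul_sum]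
    congr 1
    · congr 1
      congr 1
      rw [Matrix.trace]
      refine Finset.sum_congr rfl fun i _ => ?_
      simp [Matrix.one_apply]
    · rw [mul_comm]
      congr 1
      simp [Matrix.one_apply]
  have t4 : (Y * Y).trace ≤ fs Y := by
    have e1 : (Y * Y).trace = ∑ i, ∑ j, Y i j * Y j i := by
      rw [Matrix.trace]
      exact Finset.sum_congr rfl fun i _ => by rw [Matrix.diag_apply, Matrix.mul_apply]
    have e2 : fs Y = ∑ i, ∑ j, (1 / 2) * (Y i j ^ 2 + Y j i ^ 2) := by
      have e3 : ∑ i, ∑ j, Y j i ^ 2 = fs Y := by unfold fs; rw [Finset.sum_comm]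
      simp only [mul_add, Finset.sum_add_distrib, ← Finset.mul_sum]
      rw [e3]; unfold fs; ring
    rw [e1, e2]
    refine Finset.sum_le_sum fun i _ => Finset.sum_le_sum fun j _ => ?_
    nlinarith [sq_nonneg (Y i j - Y j i)]
  rw [t1, t2, t3]
  nlinarith [sq_nonneg Y.trace]

end Pool.Agent.Helper28
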