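import Pool.Agent.Helper28.SG.Pw

set_option linter.unusedSectionVars false
open Matrix Polynomial

namespace Pool.Agent.Helper28

theorem om_nonneg (n : ℕ) : 0 ≤ om n := by
  unfold om
  have h1 : (0 : ℝ) ≤ (if n = 0 then 1 else 0) := by split_ifs <;> norm_num
  have h2 : (0 : ℝ) ≤ (if n = 6 then 1 else 0) := by split_ifs <;> norm_num
  have h3 : (0 : ℝ) ≤ 1 + (-1) ^ n := by
    rcases neg_one_pow_eq_or ℝ n with h | h <;> rw [h] <;> norm_num
  positivity

theorem om_mod (n : ℕ) : |om n - (2 / 5) * (if n = 2 then 1 else 0)| ≤ om n := by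
  by_cases hn : n = 2
  · subst hn
    unfold om
    norm_num

  · rw [if_neg hn, mul_zero, sub_zero, abs_of_nonneg (om_nonneg n)]

theorem mix_empty (H W : Matrix (Fin 6) (Fin 6) ℝ) : mix H W ∅ = H := by
  funext i; simp [mix]

theorem mix_univ (H W : Matrix (Fin 6) (Fin 6) ℝ) : mix H W Finset.univ = W := by
  funext i; simp [mix]

theorem om_det (H W : Matrix (Fin 6) (Fin 6) ℝ) :
    ∑ I : Finset (Fin 6), om I.card * (mix H W I).det
      = (4 / 5) * (H.det + W.det) + (1 / 10) * ((H + W).det + (H - W).det) := by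
  have e1 : ∑ I : Finset (Fin 6), (mix H W I).det = (H + W).det := by
    have := row_exp H W 1
    simp only [one_smul, one_pow, one_mul] at this
    exact this.symm
  have e2 : ∑ I : Finset (Fin 6), (-1 : ℝ) ^ I.card * (mix H W I).det = (H - W).det := by
    have := row_exp H W (-1)
    rw [neg_smul, one_smul, ← sub_eq_add_neg] at this
    exact this.symm
  have e3 : ∑ I : Finset (Fin 6), (if I.card = 0 then (1 : ℝ) else 0) * (mix H W I).det
      = H.det := by
    rw [Finset.sum_eq_single (∅ : Finset (Fin 6))]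
    · rw [mix_empty]; simp
    · intro b _ hb
      rw [if_neg (by simpa using hb), zero_mul]
    · intro h; exact absurd (Finset.mem_univ _) h
  have e4 : ∑ I : Finset (Fin 6), (if I.card = 6 then (1 : ℝ) else 0) * (mix H W I).det
      = W.det := by
    rw [Finset.sum_eq_single (Finset.univ : Finset (Fin 6))]
    · rw [mix_univ]; simp
    · intro b _ hb
      rw [if_neg, zero_mul]
      intro h
      exact hb (Finset.card_eq_iff_eq_univ b |>.1 (by simpa using h))
    · intro h; exact absurd (Finset.mem_univ _) h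
  rw [← e1, ← e2, ← e3, ← e4]
  rw [← Finset.sum_add_distrib, ← Finset.sum_add_distrib, Finset.mul_sum, Finset.mul_sum,
    ← Finset.sum_add_distrib]
  refine Finset.sum_congr rfl fun I _ => ?_
  unfold om
  ring

/-- refined scalar inequality -/
theorem cal_core2 (h w k : ℝ) (h1 : h + w = 6) (hk : k ^ 2 ≤ h * w) (_ : 0 ≤ h) (_ : 0 ≤ w)
    (a b c d : ℝ) (ha : |a| ≤ (h / 6) ^ 3) (hb : |b| ≤ (w / 6) ^ 3)
    (hc : |c| ≤ ((h + 2 * k + w) / 6) ^ 3) (hd : |d| ≤ ((h - 2 * k + w) / 6) ^ 3) :
    |(4 / 5) * (a + b) + (1 / 10) * (c + d)| ≤ 1 - (h * w - k ^ 2) / 15 := by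
  have hw' : w = 6 - h := by linarith
  subst hw'
  have e1 : |(4 / 5) * (a + b) + (1 / 10) * (c + d)|
      ≤ (4 / 5) * (|a| + |b|) + (1 / 10) * (|c| + |d|) := by
    refine (abs_add_le _ _).trans ?_
    rw [abs_mul, abs_mul, abs_of_pos (by norm_num : (0 : ℝ) < 4 / 5),
      abs_of_pos (by norm_num : (0 : ℝ) < 1 / 10)]
    have := abs_add_le a b
    have := abs_add_le c d
    linarith
  refine e1.trans ?_
  have e2 : (h / 6) ^ 3 + ((6 - h) / 6) ^ 3 = 1 / 4 + (3 / 4) * ((h - 3) / 3) ^ 2 := by ring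
  have e3 : ((h + 2 * k + (6 - h)) / 6) ^ 3 + ((h - 2 * k + (6 - h)) / 6) ^ 3
      = 2 + 6 * (k / 3) ^ 2 := by ring
  nlinarith

theorem pw2 (A : Matrix (Fin 6) (Fin 6) ℝ) (a : Fin 6 → ℝ) :
    (fs A + a ⬝ᵥ a - (1 / 5) * (A.trace ^ 2 - (A * A).trace)
      ≤ 648 * Real.sqrt (1 + A * Aᵀ + Matrix.vecMulVec a a).det
        * (Real.sqrt (1 + A * Aᵀ + Matrix.vecMulVec a a).det - calf A)) ∧
    calf A - (1 / 5) * (A.trace ^ 2 - (A * A).trace)
      ≤ Real.sqrt (1 + A * Aᵀ + Matrix.vecMulVec a a).det := by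
  obtain ⟨R, hR, hu⟩ := exists_fac A
  have hRi : R⁻¹ * R = 1 := Matrix.nonsing_inv_mul R hu
  have hRi2 : R * R⁻¹ = 1 := Matrix.mul_nonsing_inv R hu
  set H := R⁻¹ with hH
  set W := R⁻¹ * A with hW
  set y := R⁻¹ *ᵥ a with hy
  have hay : R *ᵥ y = a := by rw [hy, Matrix.mulVec_mulVec, hRi2, Matrix.one_mulVec]
  have hHW : H * Hᵀ + W * Wᵀ = 1 := by
    have e : H * Hᵀ + W * Wᵀ = R⁻¹ * (1 + A * Aᵀ) * (R⁻¹)ᵀ := by
      rw [hW, hH, transpose_mul]
      noncomm_ring
    rw [e, hR]
    have e2 : R⁻¹ * (R * Rᵀ) * (R⁻¹)ᵀ = (R⁻¹ * R) * (R⁻¹ * R)ᵀ := by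
      rw [transpose_mul]; noncomm_ring
    rw [e2, hRi]; simp
  have ht := congrArg Matrix.trace hHW
  rw [trace_add, trace_one, tr_rn, tr_rn] at ht
  have hrow : ∀ i, rn H i ^ 2 + rn W i ^ 2 = 1 := by
    intro i
    have h1 := congrFun (congrFun hHW i) i
    rw [Matrix.add_apply, Matrix.mul_apply, Matrix.mul_apply, Matrix.one_apply_eq] at h1
    rw [rn_sq, rn_sq, ← h1]
    congr 1 <;> exact Finset.sum_congr rfl fun j _ => by rw [Matrix.transpose_apply, sq]
  have hRH : R.det * H.det = 1 := by rw [← det_mul, hRi2, det_one]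
  have hA : A = R * W := by rw [hW, ← Matrix.mul_assoc, hRi2, Matrix.one_mul]
  have hsc : ∀ s : ℝ, (1 + s • A).det = R.det * (H + s • W).det := by
    intro s
    rw [← det_mul, mul_add, hRi2, Matrix.mul_smul, ← hA]
  -- rows
  set cH : ℝ := ∑ i, rn H i ^ 2 with hcH
  set cW : ℝ := ∑ i, rn W i ^ 2 with hcW
  have ht6 : cH + cW = 6 := by rw [ht]; simp
  have hfH : fs H = cH := by
    rw [hcH]; unfold fs; exact Finset.sum_congr rfl fun i _ => (rn_sq H i).symm
  have hfW : fs W = cW := by
    rw [hcW]; unfold fs; exact Finset.sum_congr rfl fun i _ => (rn_sq W i).symm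
  have hcalf : calf A = R.det * ∑ I : Finset (Fin 6), om I.card * (mix H W I).det := by
    rw [om_det]
    unfold calf
    have h1 := hsc 1
    have h2 := hsc (-1)
    rw [one_smul, one_smul] at h1
    rw [neg_smul, one_smul, neg_smul, one_smul, ← sub_eq_add_neg, ← sub_eq_add_neg] at h2
    rw [h1, h2]
    have hAd : A.det = R.det * W.det := by rw [← det_mul, ← hA]
    rw [hAd, ← hRH]; ring
  -- the coefficient of degree two
  obtain ⟨p, -, hp2, -⟩ := det_pol A 1
  have hc2 := coeff2 A p hp2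
  have hpq : p = ∑ I : Finset (Fin 6), C (R.det * (mix H W I).det) * X ^ I.card := by
    refine Polynomial.funext fun s => ?_
    rw [← hp2, hsc, row_exp, Finset.mul_sum, Polynomial.eval_finsetSum]
    refine Finset.sum_congr rfl fun I _ => ?_
    simp; ring
  have hcoef : p.coeff 2 = R.det * ∑ I : Finset (Fin 6),
      (if I.card = 2 then (1 : ℝ) else 0) * (mix H W I).det := by
    rw [hpq, Polynomial.finsetSum_coeff, Finset.mul_sum]
    refine Finset.sum_congr rfl fun I _ => ?_
    rw [Polynomial.coeff_C_mul, Polynomial.coeff_X_pow]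
    by_cases h2 : I.card = 2
    · rw [if_pos h2.symm, if_pos h2]; ring
    · rw [if_neg (fun h => h2 h.symm), if_neg h2]; ring
  set Q := (1 + A * Aᵀ + Matrix.vecMulVec a a).det with hQ
  have hQe : Q = R.det ^ 2 * (1 + y ⬝ᵥ y) := by
    have e : 1 + A * Aᵀ + Matrix.vecMulVec a a = R * (1 + Matrix.vecMulVec y y) * Rᵀ := by
      rw [hR, mul_add, add_mul, mul_one]
      congr 1
      rw [Matrix.mul_vecMulVec, hay, Matrix.vecMulVec_mul, Matrix.vecMul_transpose, hay]
    rw [hQ, e, det_mul, det_mul, det_transpose, det_one_add_vec]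
    ring
  have hyy : 0 ≤ y ⬝ᵥ y := by
    rw [dotProduct]; exact Finset.sum_nonneg fun i _ => mul_self_nonneg _
  have hQn : 0 ≤ Q := by rw [hQe]; positivity
  set f := Real.sqrt Q with hf
  have hf2 : f ^ 2 = Q := Real.sq_sqrt hQn
  have hfn : 0 ≤ f := Real.sqrt_nonneg _
  set f0 := |R.det| with hf0
  have hf0n : 0 ≤ f0 := abs_nonneg _
  have hf02 : f0 ^ 2 = R.det ^ 2 := sq_abs _
  have hRf : f0 ≤ f := by
    refine Real.le_sqrt_of_sq_le ?_
    rw [hf02, hQe]
    nlinarith [sq_nonneg R.det]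
  have hsum : ∑ I : Finset (Fin 6), om I.card
      * ((∏ i ∈ I, rn W i) * ∏ i ∈ Finset.univ \ I, rn H i) ≤ 1 :=
    om_sum (rn H) (rn W) (rn_nonneg H) (rn_nonneg W) ht6
  refine ⟨?_, ?_⟩
  · -- first inequality
    have hCpos : 0 < cH := by
      rcases (Finset.sum_nonneg fun i (_ : i ∈ Finset.univ) => sq_nonneg (rn H i)).lt_or_eq
        with h | h
      · exact h
      · exfalso
        have h1 : fs H = 0 := by rw [hfH]; exact h.symm
        have h2 := hadamard H
        have h3 : rn H 0 = 0 := by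
          have h4 : rn H 0 ^ 2 ≤ cH :=
            Finset.single_le_sum (f := fun i => rn H i ^ 2) (fun i _ => sq_nonneg _)
              (Finset.mem_univ 0)
          rw [hcH, ← h] at h4
          have := sq_nonneg (rn H 0)
          exact pow_eq_zero_iff two_ne_zero |>.1 (le_antisymm h4 this)
        rw [← Finset.mul_prod_erase Finset.univ (fun i => rn H i) (Finset.mem_univ 0), h3,
          zero_mul] at h2
        have h5 : H.det = 0 := abs_eq_zero.1 (le_antisymm h2 (abs_nonneg _))
        rw [h5, mul_zero] at hRH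
        exact zero_ne_one hRH
    have hcWn : 0 ≤ cW := Finset.sum_nonneg fun i _ => sq_nonneg _
    set k : ℝ := (H * Wᵀ).trace with hk
    have hks : k = ∑ i, ∑ j, H i j * W i j := by
      rw [hk, Matrix.trace]
      refine Finset.sum_congr rfl fun i _ => ?_
      rw [Matrix.diag_apply, Matrix.mul_apply]
      rfl
    have hk1 : (W * Hᵀ).trace = (H * Wᵀ).trace := by
      rw [← trace_transpose, transpose_mul, transpose_transpose]
    have hpl : ((H + W) * (H + W)ᵀ).trace = cH + 2 * k + cW := by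
      have e : (H + W) * (H + W)ᵀ = H * Hᵀ + H * Wᵀ + W * Hᵀ + W * Wᵀ := by
        rw [transpose_add]; noncomm_ring
      rw [e, trace_add, trace_add, trace_add, hk1, tr_rn, tr_rn]; ring
    have hmi : ((H - W) * (H - W)ᵀ).trace = cH - 2 * k + cW := by
      have e : (H - W) * (H - W)ᵀ = H * Hᵀ - H * Wᵀ - W * Hᵀ + W * Wᵀ := by
        rw [transpose_sub]; noncomm_ring
      rw [e, trace_add, trace_sub, trace_sub, hk1, tr_rn, tr_rn]; ring
    have hYfs : fs (cH • W - k • H) = cH * (cH * cW - k ^ 2) := by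
      have e : ∀ i j, (cH • W - k • H) i j ^ 2 = cH ^ 2 * W i j ^ 2
          - (2 * cH * k) * (H i j * W i j) + k ^ 2 * H i j ^ 2 := by
        intro i j
        simp only [Matrix.sub_apply, Matrix.smul_apply, smul_eq_mul]
        ring
      have e2 : fs (cH • W - k • H) = cH ^ 2 * fs W - (2 * cH * k) * k + k ^ 2 * fs H := by
        conv_rhs => rw [hks]
        unfold fs
        simp only [e, Finset.sum_add_distrib, Finset.sum_sub_distrib, ← Finset.mul_sum]
        rw [← hks]
      rw [e2, hfW, hfH]; ring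
    have hdisc : k ^ 2 ≤ cH * cW := by
      have h1 := fs_nonneg (cH • W - k • H)
      rw [hYfs] at h1
      have := (mul_nonneg_iff_of_pos_left hCpos).1 h1
      linarith
    have hcore := cal_core2 cH cW k ht6 hdisc hCpos.le hcWn
      H.det W.det (H + W).det (H - W).det
      (by have := abs_det_le H; rwa [tr_rn] at this)
      (by have := abs_det_le W; rwa [tr_rn] at this)
      (by rw [← hpl]; exact abs_det_le _) (by rw [← hmi]; exact abs_det_le _)
    rw [← om_det] at hcore
    have hg : calf A ≤ f0 * (1 - (cH * cW - k ^ 2) / 15) := by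
      rw [hcalf]
      refine (le_abs_self _).trans ?_
      rw [abs_mul]
      exact mul_le_mul_of_nonneg_left hcore hf0n
    -- adjugate bound
    have hadj : fs H.adjugate ≤ 36 * cH := by
      refine adj_fs H cH (fun i => ?_) (fun i => ?_)
      · exact Finset.single_le_sum (f := fun i => rn H i ^ 2) (fun i _ => sq_nonneg _)
          (Finset.mem_univ i)
      · have h1 := hrow i
        have h2 := rn_nonneg H i
        nlinarith [sq_nonneg (rn W i)]
    have hRadj : R = R.det • H.adjugate := by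
      have h1 : H.adjugate = H.det • R := by
        have hHu : IsUnit H.det := isUnit_iff_ne_zero.2 (fun h => by
          rw [h, mul_zero] at hRH; exact zero_ne_one hRH)
        have h2 : H⁻¹ = R := by rw [hH]; exact Matrix.nonsing_inv_nonsing_inv R hu
        rw [← h2, Matrix.inv_def, smul_smul, Ring.mul_inverse_cancel _ hHu, one_smul]
      rw [h1, smul_smul, hRH, one_smul]
    have hB : fs (A - (k / cH) • 1) ≤ 36 * f0 ^ 2 * (cH * cW - k ^ 2) := by
      have e1 : cH • (A - (k / cH) • (1 : Matrix (Fin 6) (Fin 6) ℝ))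
          = R.det • (H.adjugate * (cH • W - k • H)) := by
        rw [← Matrix.smul_mul, ← hRadj, mul_sub, Matrix.mul_smul, Matrix.mul_smul, hRi2, ← hA,
          smul_sub, smul_smul, mul_div_cancel₀ _ hCpos.ne']
      have e2 := congrArg fs e1
      rw [fs_smul, fs_smul] at e2
      have e3 := fs_mul H.adjugate (cH • W - k • H)
      rw [hYfs] at e3
      have e4 : fs H.adjugate * (cH * (cH * cW - k ^ 2))
          ≤ 36 * cH * (cH * (cH * cW - k ^ 2)) :=
        mul_le_mul_of_nonneg_right hadj (mul_nonneg hCpos.le (by linarith))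
      have e5 : cH ^ 2 * fs (A - (k / cH) • 1) ≤ cH ^ 2 * (36 * f0 ^ 2 * (cH * cW - k ^ 2)) := by
        rw [e2, hf02]
        calc R.det ^ 2 * fs (H.adjugate * (cH • W - k • H))
            ≤ R.det ^ 2 * (36 * cH * (cH * (cH * cW - k ^ 2))) :=
              mul_le_mul_of_nonneg_left (e3.trans e4) (sq_nonneg _)
          _ = cH ^ 2 * (36 * R.det ^ 2 * (cH * cW - k ^ 2)) := by ring
      exact le_of_mul_le_mul_left e5 (by positivity)
    have hDs := D_shift A (k / cH)
    have haa : a ⬝ᵥ a ≤ 216 * (f ^ 2 - f0 ^ 2) := by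
      have e0 : a = R.det • (H.adjugate *ᵥ y) := by
        rw [← Matrix.smul_mulVec, ← hRadj, hay]
      have e1 : a ⬝ᵥ a = R.det ^ 2 * ∑ i, (H.adjugate *ᵥ y) i ^ 2 := by
        conv_lhs => rw [e0]
        rw [dotProduct, Finset.mul_sum]
        refine Finset.sum_congr rfl fun i _ => ?_
        simp only [Pi.smul_apply, smul_eq_mul]; ring
      have e2 := vec_bound H.adjugate y
      have e3 : ∑ j, y j ^ 2 = y ⬝ᵥ y := by
        rw [dotProduct]; exact Finset.sum_congr rfl fun i _ => sq _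
      rw [e3] at e2
      have e4 : fs H.adjugate * (y ⬝ᵥ y) ≤ 216 * (y ⬝ᵥ y) := by
        refine mul_le_mul_of_nonneg_right (hadj.trans ?_) hyy
        linarith
      rw [e1, hf2, hQe, hf02]
      have := mul_le_mul_of_nonneg_left (e2.trans e4) (sq_nonneg R.det)
      linarith
    have hx : f0 ^ 2 * (cH * cW - k ^ 2) ≤ 15 * f0 * (f0 - calf A) := by
      have := mul_le_mul_of_nonneg_left hg hf0n
      nlinarith
    have hcf : 0 ≤ f0 - calf A := by
      have : 0 ≤ f0 * ((cH * cW - k ^ 2) / 15) := mul_nonneg hf0n (by linarith)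
      linarith
    have hfin1 : f0 * (f0 - calf A) ≤ f * (f0 - calf A) := mul_le_mul_of_nonneg_right hRf hcf
    have hfin2 : f ^ 2 - f0 ^ 2 ≤ 2 * f * (f - f0) := by nlinarith
    have hfin3 : 0 ≤ f * (f - f0) := mul_nonneg hfn (by linarith)
    nlinarith
  · have h1 : calf A - (1 / 5) * (A.trace ^ 2 - (A * A).trace)
        = R.det * ∑ I : Finset (Fin 6), (om I.card - (2 / 5) * (if I.card = 2 then 1 else 0))
          * (mix H W I).det := by
      rw [← hc2, hcoef, hcalf]
      simp only [sub_mul, Finset.sum_sub_distrib, mul_sub]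
      congr 1
      rw [← mul_assoc, ← mul_assoc]
      simp only [mul_assoc, Finset.mul_sum]
      refine Finset.sum_congr rfl fun I _ => ?_
      ring
    rw [h1]
    refine ((le_abs_self _).trans ?_).trans hRf
    rw [abs_mul]
    refine mul_le_of_le_one_right hf0n ((Finset.abs_sum_le_sum_abs _ _).trans (le_trans ?_ hsum))
    refine Finset.sum_le_sum fun I _ => ?_
    rw [abs_mul]
    exact mul_le_mul (om_mod _) (det_pw H W I) (abs_nonneg _) (om_nonneg _)

end Pool.Agent.Helper28
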